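import Pool.Agent.DBP.EUL

/-!
# MP_dbd377_co: the Euler inequality for graphs with an abstract dual
-/

set_option autoImplicit false

open scoped BigOperators

namespace DBP

open Finset

variable {V : Type} [Fintype V]

/-! ### the number of edges -/

/-- extension by zero -/
noncomputable def ext (G : SimpleGraph V) : (G.edgeSet → ZMod 2) →ₗ[ZMod 2] (Sym2 V → ZMod 2) where
  toFun f := by
    classical exact fun e => if h : e ∈ G.edgeSet then f ⟨e, h⟩ else 0
  map_add' := by
    intro f g
    funext e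
    by_cases h : e ∈ G.edgeSet
    · simp only [Pi.add_apply, dif_pos h]
    · simp only [Pi.add_apply, dif_neg h, add_zero]
  map_smul' := by
    intro c f
    funext e
    by_cases h : e ∈ G.edgeSet
    · simp only [Pi.smul_apply, RingHom.id_apply, dif_pos h]
    · simp only [Pi.smul_apply, RingHom.id_apply, dif_neg h, smul_zero]

omit [Fintype V] in
theorem ext_pos {G : SimpleGraph V} (f : G.edgeSet → ZMod 2) {e : Sym2 V} (h : e ∈ G.edgeSet) :
    ext G f e = f ⟨e, h⟩ := by
  classical
  exact dif_pos h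

omit [Fintype V] in
theorem ext_neg {G : SimpleGraph V} (f : G.edgeSet → ZMod 2) {e : Sym2 V} (h : e ∉ G.edgeSet) :
    ext G f e = 0 := by
  classical
  exact dif_neg h

/-- the degree map -/
noncomputable def dg (V : Type) [Fintype V] : (Sym2 V → ZMod 2) →ₗ[ZMod 2] (V → ZMod 2) where
  toFun s := fun v => ∑ u, s s(v, u)
  map_add' := by
    intro f g
    funext v
    simp only [Pi.add_apply]
    rw [Finset.sum_add_distrib]
  map_smul' := by
    intro c f
    funext v
    simp only [Pi.smul_apply, RingHom.id_apply, smul_eq_mul]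
    rw [Finset.mul_sum]

theorem dg_apply (s : Sym2 V → ZMod 2) (v : V) : dg V s v = ∑ u, s s(v, u) := rfl

/-- the total degree is even -/
theorem sum_dg {G : SimpleGraph V} (s : Sym2 V → ZMod 2) (hs : ∀ e, e ∉ G.edgeSet → s e = 0) :
    ∑ v, dg V s v = 0 := by
  classical
  simp only [dg_apply]
  rw [← Finset.sum_product']
  refine Finset.sum_involution (fun q _ => (q.2, q.1)) ?_ ?_ ?_ ?_
  · rintro ⟨x, y⟩ _
    have : s(y, x) = s(x, y) := Sym2.eq_swap
    show s s(x, y) + s s(y, x) = 0
    rw [this]
    exact PLG.z2_add_self _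
  · rintro ⟨x, y⟩ _ hne h
    simp only [Prod.mk.injEq] at h
    apply hne
    show s s(x, y) = 0
    rw [h.2]
    exact hs _ (fun h => G.loopless.irrefl y h)
  · rintro ⟨x, y⟩ h
    simp
  · rintro ⟨x, y⟩ _
    rfl

/-- `|E| + 1 ≤ |V| + dim Z` -/
theorem edges_le [Nonempty V] (G : SimpleGraph V) :
    Nat.card G.edgeSet + 1 ≤ Fintype.card V + Module.finrank (ZMod 2) (Z G) := by
  classical
  have : Fintype G.edgeSet := Fintype.ofFinite _
  have : Fact (Nat.Prime 2) := ⟨Nat.prime_two⟩
  set Θ : (G.edgeSet → ZMod 2) →ₗ[ZMod 2] (V → ZMod 2) := (dg V).comp (ext G) with hΘ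
  have h1 := LinearMap.finrank_range_add_finrank_ker Θ
  rw [Module.finrank_fintype_fun_eq_card] at h1
  -- the range
  have h2 : Module.finrank (ZMod 2) (LinearMap.range Θ) + 1 ≤ Fintype.card V := by
    set σ : (V → ZMod 2) →ₗ[ZMod 2] ZMod 2 :=
      { toFun := fun x => ∑ v, x v
        map_add' := by
          intro x y
          simp only [Pi.add_apply]
          rw [Finset.sum_add_distrib]
        map_smul' := by
          intro c x
          simp only [Pi.smul_apply, RingHom.id_apply, smul_eq_mul]
          rw [Finset.mul_sum] } with hσ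
    have hle : LinearMap.range Θ ≤ LinearMap.ker σ := by
      rintro x ⟨f, rfl⟩
      rw [LinearMap.mem_ker]
      exact sum_dg (G := G) (ext G f) (fun e he => ext_neg f he)
    have h3 := LinearMap.finrank_range_add_finrank_ker σ
    rw [Module.finrank_fintype_fun_eq_card] at h3
    have h4 : LinearMap.range σ = ⊤ := by
      rw [LinearMap.range_eq_top]
      intro c
      obtain ⟨v⟩ := ‹Nonempty V›
      refine ⟨Pi.single v c, ?_⟩
      show ∑ u, (Pi.single v c : V → ZMod 2) u = c
      rw [Finset.sum_pi_single']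
      simp
    rw [h4, finrank_top, Module.finrank_self] at h3
    have h5 := Submodule.finrank_mono hle
    omega
  -- the kernel
  have h3 : Module.finrank (ZMod 2) (LinearMap.ker Θ) ≤ Module.finrank (ZMod 2) (Z G) := by
    have hmap : ∀ f ∈ LinearMap.ker Θ, ext G f ∈ Z G := by
      intro f hf
      rw [mem_Z]
      refine ⟨fun e he => ext_neg f he, fun v => ?_⟩
      rw [LinearMap.mem_ker] at hf
      exact congrFun hf v
    let L : LinearMap.ker Θ →ₗ[ZMod 2] Z G := (ext G).restrict hmap
    refine LinearMap.finrank_le_finrank_of_injective (f := L) ?_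
    intro f g hfg
    have h4 : ext G (f : G.edgeSet → ZMod 2) = ext G (g : G.edgeSet → ZMod 2) :=
      congrArg Subtype.val hfg
    apply Subtype.ext
    funext e
    have h5 := congrFun h4 e.1
    rw [ext_pos _ e.2, ext_pos _ e.2] at h5
    exact h5
  rw [Nat.card_eq_fintype_card]
  omega

/-! ### the faces -/

/-- the coboundary of a face -/
noncomputable def fc {F : Type} (G : SimpleGraph V) (A B : Sym2 V → F) (φ : F) :
    Sym2 V → ZMod 2 := by
  classical exact fun e => if e ∈ G.edgeSet then
    (if A e = φ then 1 else 0) + (if B e = φ then 1 else 0) else 0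

omit [Fintype V] in
theorem fc_ne {F : Type} {G : SimpleGraph V} {A B : Sym2 V → F} {φ : F} {e : Sym2 V}
    (h : fc G A B φ e ≠ 0) : e ∈ G.edgeSet ∧ (A e = φ ∨ B e = φ) := by
  classical
  unfold fc at h
  by_cases he : e ∈ G.edgeSet
  · rw [if_pos he] at h
    refine ⟨he, ?_⟩
    by_contra hcon
    push Not at hcon
    rw [if_neg hcon.1, if_neg hcon.2, add_zero] at h
    exact h rfl
  · rw [if_neg he] at h
    exact absurd rfl h

theorem fc_mem {F : Type} {G : SimpleGraph V} {A B : Sym2 V → F}
    (h : ∀ s : Sym2 V → ZMod 2, (∀ e, e ∉ G.edgeSet → s e = 0) →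
      ((∀ v, ∑ u, s s(v, u) = 0) ↔
        ∃ w : F → ZMod 2, ∀ e ∈ G.edgeSet, s e = w (A e) + w (B e))) (φ : F) :
    fc G A B φ ∈ Z G := by
  classical
  rw [mem_Z]
  have h1 : ∀ e, e ∉ G.edgeSet → fc G A B φ e = 0 := fun e he => by
    unfold fc
    rw [if_neg he]
  refine ⟨h1, (h _ h1).2 ⟨fun ψ => if ψ = φ then 1 else 0, fun e he => ?_⟩⟩
  unfold fc
  rw [if_pos he]

theorem Z_le_span {F : Type} {G : SimpleGraph V} {A B : Sym2 V → F}
    (h : ∀ s : Sym2 V → ZMod 2, (∀ e, e ∉ G.edgeSet → s e = 0) →
      ((∀ v, ∑ u, s s(v, u) = 0) ↔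
        ∃ w : F → ZMod 2, ∀ e ∈ G.edgeSet, s e = w (A e) + w (B e))) :
    Submodule.span (ZMod 2) (Set.range (fc G A B)) = Z G := by
  classical
  apply le_antisymm
  · rw [Submodule.span_le]
    rintro s ⟨φ, rfl⟩
    exact fc_mem h φ
  · intro s hs
    obtain ⟨hs1, hs2⟩ := mem_Z.1 hs
    obtain ⟨w, hw⟩ := (h s hs1).1 hs2
    set Φ : Finset F := univ.image A ∪ univ.image B with hΦ
    have h1 : s = ∑ φ ∈ Φ, w φ • fc G A B φ := by
      funext e
      rw [Finset.sum_apply]
      by_cases he : e ∈ G.edgeSet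
      · rw [hw e he]
        have h2 : ∀ φ ∈ Φ, (w φ • fc G A B φ) e
            = (if A e = φ then w φ else 0) + (if B e = φ then w φ else 0) := by
          intro φ _
          rw [Pi.smul_apply, smul_eq_mul]
          unfold fc
          rw [if_pos he, mul_add, mul_ite, mul_ite, mul_one, mul_zero]
        rw [Finset.sum_congr rfl h2, Finset.sum_add_distrib, Finset.sum_ite_eq, Finset.sum_ite_eq,
          if_pos, if_pos]
        · exact mem_union_right _ (mem_image_of_mem _ (mem_univ _))
        · exact mem_union_left _ (mem_image_of_mem _ (mem_univ _))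
      · rw [hs1 e he]
        refine (Finset.sum_eq_zero fun φ _ => ?_).symm
        rw [Pi.smul_apply]
        unfold fc
        rw [if_neg he, smul_zero]
    rw [h1]
    exact Submodule.sum_mem _ fun φ _ =>
      Submodule.smul_mem _ _ (Submodule.subset_span ⟨φ, rfl⟩)

/-- `8 dim Z ≤ 2 |E| + 5 t` -/
theorem dim_le {G : SimpleGraph V} (hG : Sp G) (hD : PLG.HasDual G) :
    8 * Module.finrank (ZMod 2) (Z G)
      ≤ 2 * Nat.card G.edgeSet + 5 * Nat.card {T : Finset V // G.IsNClique 3 T} := by
  classical
  have : Fact (Nat.Prime 2) := ⟨Nat.prime_two⟩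
  obtain ⟨F, A, B, h⟩ := hD
  obtain ⟨b, hb1, hb2, hb3⟩ := exists_linearIndependent (ZMod 2) (Set.range (fc G A B))
  rw [Z_le_span h] at hb2
  have : Fintype b := Fintype.ofFinite b
  set bs : Finset (Sym2 V → ZMod 2) := b.toFinset with hbs
  have hmb : ∀ s, s ∈ bs ↔ s ∈ b := fun s => by rw [hbs, Set.mem_toFinset]
  have hcard : Module.finrank (ZMod 2) (Z G) = bs.card := by
    rw [← hb2]
    exact finrank_span_set_eq_card hb3
  have hbZ : ∀ s ∈ bs, s ∈ Z G := fun s hs => by
    rw [← hb2]
    exact Submodule.subset_span ((hmb s).1 hs)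
  have hb0 : ∀ s ∈ bs, s ≠ 0 := fun s hs => hb3.ne_zero (⟨s, (hmb s).1 hs⟩ : b)
  -- the small ones
  set sm : Finset (Sym2 V → ZMod 2) := bs.filter (fun s => (sp s).card ≤ 7) with hsm
  have hsmall : sm.card ≤ Nat.card {T : Finset V // G.IsNClique 3 T} := by
    have : Fintype {T : Finset V // G.IsNClique 3 T} := Fintype.ofFinite _
    have h1 : (sm : Set (Sym2 V → ZMod 2)) ⊆ b := fun s hs =>
      (hmb s).1 (Finset.mem_filter.1 hs).1
    have hb4 : LinearIndepOn (ZMod 2) id b := hb3
    have h2 : LinearIndepOn (ZMod 2) id (sm : Set (Sym2 V → ZMod 2)) := hb4.mono h1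
    have h3 : Module.finrank (ZMod 2) (Submodule.span (ZMod 2) (sm : Set (Sym2 V → ZMod 2)))
        = sm.card := finrank_span_finset_eq_card h2
    rw [← h3]
    have h4 : Submodule.span (ZMod 2) (sm : Set (Sym2 V → ZMod 2))
        ≤ Submodule.span (ZMod 2)
          (Set.range fun T : {T : Finset V // G.IsNClique 3 T} => tau T.1) := by
      rw [Submodule.span_le]
      intro s hs
      obtain ⟨hs1, hs2⟩ := Finset.mem_filter.1 hs
      have h5 := (small hG 7 s (hbZ s hs1) hs2 le_rfl).1
      have h6 : {f | ∃ T : Finset V, G.IsNClique 3 T ∧ f = tau T}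
          = Set.range fun T : {T : Finset V // G.IsNClique 3 T} => tau T.1 := by
        ext f
        constructor
        · rintro ⟨T, hT, rfl⟩
          exact ⟨⟨T, hT⟩, rfl⟩
        · rintro ⟨T, rfl⟩
          exact ⟨T.1, T.2, rfl⟩
      rw [h6] at h5
      exact h5
    refine (Submodule.finrank_mono h4).trans ?_
    rw [Nat.card_eq_fintype_card]
    exact finrank_range_le_card _
  -- double counting
  have hdc : ∑ s ∈ bs, (sp s).card ≤ 2 * Nat.card G.edgeSet := by
    have hchoose : ∀ s ∈ bs, ∃ φ, fc G A B φ = s := fun s hs => hb1 ((hmb s).1 hs)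
    rcases bs.eq_empty_or_nonempty with hbe | ⟨s0, hs0⟩
    · rw [hbe, Finset.sum_empty]
      exact Nat.zero_le _
    obtain ⟨φ0, -⟩ := hchoose s0 hs0
    have : Nonempty F := ⟨φ0⟩
    choose! g hg using hchoose
    have h1 : ∑ s ∈ bs, (sp s).card = ∑ e : Sym2 V, (bs.filter (fun s => s e ≠ 0)).card := by
      have h2 : ∀ s ∈ bs, (sp s).card = ∑ e : Sym2 V, if s e ≠ 0 then 1 else 0 := by
        intro s _
        rw [← Finset.card_filter]
        congr 1
      rw [Finset.sum_congr rfl h2, Finset.sum_comm]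
      refine Finset.sum_congr rfl fun e _ => ?_
      rw [Finset.card_filter]
    have h2 : ∀ e : Sym2 V, (bs.filter (fun s => s e ≠ 0)).card
        ≤ if e ∈ G.edgeSet then 2 else 0 := by
      intro e
      by_cases he : e ∈ G.edgeSet
      · rw [if_pos he]
        have h3 : (bs.filter (fun s => s e ≠ 0)).image g ⊆ {A e, B e} := by
          intro φ hφ
          obtain ⟨s, hs, rfl⟩ := Finset.mem_image.1 hφ
          obtain ⟨hs1, hs2⟩ := Finset.mem_filter.1 hs
          rw [← hg s hs1] at hs2
          rcases (fc_ne hs2).2 with h4 | h4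
          · exact Finset.mem_insert.2 (Or.inl h4.symm)
          · exact Finset.mem_insert.2 (Or.inr (Finset.mem_singleton.2 h4.symm))
        have h4 : ((bs.filter (fun s => s e ≠ 0)).image g).card
            = (bs.filter (fun s => s e ≠ 0)).card := by
          refine Finset.card_image_of_injOn ?_
          intro s hs s' hs' hss
          have hs1 := (Finset.mem_filter.1 (Finset.mem_coe.1 hs)).1
          have hs2 := (Finset.mem_filter.1 (Finset.mem_coe.1 hs')).1
          rw [← hg s hs1, ← hg s' hs2, hss]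
        rw [← h4]
        exact (Finset.card_le_card h3).trans Finset.card_le_two
      · rw [if_neg he, Nat.le_zero, Finset.card_eq_zero, Finset.filter_eq_empty_iff]
        intro s hs hne
        exact hne ((mem_Z.1 (hbZ s hs)).1 e he)
    rw [h1]
    refine (Finset.sum_le_sum fun e _ => h2 e).trans ?_
    rw [← Finset.sum_filter, Finset.sum_const, smul_eq_mul, mul_comm]
    have : Fintype G.edgeSet := Fintype.ofFinite _
    rw [Nat.card_eq_fintype_card, ← Set.toFinset_card]
    refine Nat.mul_le_mul_left 2 (Finset.card_le_card ?_)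
    intro e he
    rw [Set.mem_toFinset]
    exact (Finset.mem_filter.1 he).2
  -- conclusion
  have hfin : 8 * bs.card ≤ ∑ s ∈ bs, (sp s).card + 5 * sm.card := by
    have h1 : ∀ s ∈ bs, 8 ≤ (sp s).card + (if (sp s).card ≤ 7 then 5 else 0) := by
      intro s hs
      by_cases h7 : (sp s).card ≤ 7
      · rw [if_pos h7]
        have := (small hG 7 s (hbZ s hs) h7 le_rfl).2 (hb0 s hs)
        omega
      · rw [if_neg h7]
        omega
    have h2 := Finset.sum_le_sum h1
    rw [Finset.sum_const, smul_eq_mul, Finset.sum_add_distrib, ← Finset.sum_filter,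
      Finset.sum_const, smul_eq_mul] at h2
    rw [hsm]
    omega
  rw [hcard]
  omega

/-- the Euler inequality -/
theorem euler [Nonempty V] {G : SimpleGraph V} (hG : Sp G) (hD : PLG.HasDual G) :
    6 * Nat.card G.edgeSet + 8
      ≤ 8 * Fintype.card V + 5 * Nat.card {T : Finset V // G.IsNClique 3 T} := by
  have h1 := edges_le G
  have h2 := dim_le hG hD
  omega

end DBP
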