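import Pool.Agent.PLG.Api

/-!
# MP_dbd377_co: from an abstract dual to the Euler inequality

For a finite graph with an abstract dual over `F₂` and without cycles of length `4, …, 7`:
`6 |E| + 8 ≤ 8 |V| + 5 t`, where `t` is the number of triangles.
-/

set_option autoImplicit false

open scoped BigOperators

namespace DBP

open Finset

variable {V : Type}

/-- no cycle of length 4, 5, 6, 7 -/
def Sp (G : SimpleGraph V) : Prop :=
  ∀ (v : V) (c : G.Walk v v), c.IsCycle → c.length < 4 ∨ 7 < c.length

section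
variable [Fintype V]

/-- the cycle space over `F₂` -/
def Z (G : SimpleGraph V) : Submodule (ZMod 2) (Sym2 V → ZMod 2) where
  carrier := {s | (∀ e, e ∉ G.edgeSet → s e = 0) ∧ ∀ v, ∑ u, s s(v, u) = 0}
  add_mem' := by
    rintro a b ⟨ha1, ha2⟩ ⟨hb1, hb2⟩
    refine ⟨fun e he => ?_, fun v => ?_⟩
    · rw [Pi.add_apply, ha1 e he, hb1 e he, add_zero]
    · simp only [Pi.add_apply]
      rw [Finset.sum_add_distrib, ha2, hb2, add_zero]
  zero_mem' := ⟨fun _ _ => rfl, fun _ => by simp⟩
  smul_mem' := by
    rintro c a ⟨ha1, ha2⟩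
    refine ⟨fun e he => ?_, fun v => ?_⟩
    · rw [Pi.smul_apply, ha1 e he, smul_zero]
    · simp only [Pi.smul_apply, smul_eq_mul]
      rw [← Finset.mul_sum, ha2, mul_zero]

theorem mem_Z {G : SimpleGraph V} {s : Sym2 V → ZMod 2} :
    s ∈ Z G ↔ (∀ e, e ∉ G.edgeSet → s e = 0) ∧ ∀ v, ∑ u, s s(v, u) = 0 := Iff.rfl

theorem z2 (a : ZMod 2) : a = 0 ∨ a = 1 := by
  revert a; decide

/-- the graph of the support -/
def H (s : Sym2 V → ZMod 2) : SimpleGraph V := SimpleGraph.fromEdgeSet {e | s e ≠ 0}

omit [Fintype V] in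
theorem H_adj {s : Sym2 V → ZMod 2} {x y : V} : (H s).Adj x y ↔ s s(x, y) ≠ 0 ∧ x ≠ y := by
  unfold H
  rw [SimpleGraph.fromEdgeSet_adj, Set.mem_ofPred_eq]

/-- an edge of the support of an even function is not a bridge of the support -/
theorem reach {G : SimpleGraph V} {s : Sym2 V → ZMod 2} (hs : s ∈ Z G) {u v : V}
    (huv : s s(u, v) ≠ 0) : ((H s).deleteEdges {s(u, v)}).Reachable u v := by
  classical
  by_contra hcon
  obtain ⟨hs1, hs2⟩ := mem_Z.1 hs
  have hdiag : ∀ x, s s(x, x) = 0 := fun x => hs1 _ (fun h => G.loopless.irrefl x h)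
  set C : Finset V := univ.filter (fun x => ((H s).deleteEdges {s(u, v)}).Reachable u x) with hC
  have hmem : ∀ x, x ∈ C ↔ ((H s).deleteEdges {s(u, v)}).Reachable u x := fun x => by
    rw [hC, mem_filter]; simp
  have huC : u ∈ C := (hmem u).2 (SimpleGraph.Reachable.refl u)
  have hvC : v ∉ C := fun h => hcon ((hmem v).1 h)
  have h0 : ∑ x ∈ C, ∑ y, s s(x, y) = 0 := Finset.sum_eq_zero fun x _ => hs2 x
  have h1 : ∑ x ∈ C, ∑ y, s s(x, y)
      = ∑ x ∈ C, ∑ y ∈ C, s s(x, y) + ∑ x ∈ C, ∑ y ∈ Cᶜ, s s(x, y) := by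
    rw [← Finset.sum_add_distrib]
    exact Finset.sum_congr rfl fun x _ => (Finset.sum_add_sum_compl C _).symm
  have h2 : ∑ x ∈ C, ∑ y ∈ C, s s(x, y) = 0 := by
    rw [← Finset.sum_product']
    refine Finset.sum_involution (fun q _ => (q.2, q.1)) ?_ ?_ ?_ ?_
    · rintro ⟨x, y⟩ _
      have : s(y, x) = s(x, y) := Sym2.eq_swap
      show s s(x, y) + s s(y, x) = 0
      rw [this]
      exact PLG.z2_add_self _
    · rintro ⟨x, y⟩ _ hne h
      simp only [Prod.mk.injEq] at h
      apply hne
      show s s(x, y) = 0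
      rw [h.2]
      exact hdiag y
    · rintro ⟨x, y⟩ h
      simp only [mem_product] at h ⊢
      exact ⟨h.2, h.1⟩
    · rintro ⟨x, y⟩ _
      rfl
  have h3 : ∑ x ∈ C, ∑ y ∈ Cᶜ, s s(x, y) = s s(u, v) := by
    have key : ∀ x ∈ C, ∀ y ∈ Cᶜ, s s(x, y) ≠ 0 → x = u ∧ y = v := by
      intro x hx y hy hne
      have hyC : y ∉ C := Finset.mem_compl.1 hy
      have hxy : x ≠ y := fun h => hyC (h ▸ hx)
      by_cases he : s(x, y) = s(u, v)
      · rcases Sym2.eq_iff.1 he with h | h
        · exact h
        · exact absurd (h.1 ▸ hx) hvC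
      · exfalso
        apply hyC
        rw [hmem]
        refine ((hmem x).1 hx).trans (SimpleGraph.Adj.reachable ?_)
        rw [SimpleGraph.deleteEdges_adj]
        exact ⟨H_adj.2 ⟨hne, hxy⟩, he⟩
    rw [Finset.sum_eq_single u, Finset.sum_eq_single v]
    · intro y hy hyv
      by_contra hne
      exact hyv (key u huC y hy hne).2
    · intro h
      exact absurd (Finset.mem_compl.2 hvC) h
    · intro x hx hxu
      refine Finset.sum_eq_zero fun y hy => ?_
      by_contra hne
      exact hxu (key x hx y hy hne).1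
    · intro h
      exact absurd huC h
  rw [h1, h2, zero_add, h3] at h0
  exact huv h0

/-- the support -/
noncomputable def sp (s : Sym2 V → ZMod 2) : Finset (Sym2 V) := by
  classical exact univ.filter fun e => s e ≠ 0

theorem mem_sp {s : Sym2 V → ZMod 2} {e : Sym2 V} : e ∈ sp s ↔ s e ≠ 0 := by
  classical
  unfold sp
  simp

/-- small supports: every edge lies in a triangle of the support -/
theorem tri_of_small {G : SimpleGraph V} (hG : Sp G) {s : Sym2 V → ZMod 2} (hs : s ∈ Z G)
    (hc : (sp s).card ≤ 7) {u v : V} (huv : s s(u, v) ≠ 0) :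
    ∃ a b c : V, s s(a, b) ≠ 0 ∧ s s(b, c) ≠ 0 ∧ s s(c, a) ≠ 0 ∧ a ≠ b ∧ b ≠ c ∧ c ≠ a ∧
      (s(u, v) = s(a, b) ∨ s(u, v) = s(b, c) ∨ s(u, v) = s(c, a)) := by
  classical
  obtain ⟨hs1, hs2⟩ := mem_Z.1 hs
  have hne : u ≠ v := by
    rintro rfl
    exact huv (hs1 _ (fun h => G.loopless.irrefl u h))
  obtain ⟨w, p, hp, hep⟩ := SimpleGraph.adj_and_reachable_delete_edges_iff_exists_cycle.1
    ⟨H_adj.2 ⟨huv, hne⟩, reach hs huv⟩
  have hle : H s ≤ G := by
    intro x y hxy
    by_contra h
    exact (H_adj.1 hxy).1 (hs1 _ h)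
  have hlen : p.length ≤ 7 := by
    have h1 : p.edges.toFinset ⊆ sp s := by
      intro e he
      rw [List.mem_toFinset] at he
      have h2 := p.edges_subset_edgeSet he
      rw [mem_sp]
      revert h2
      refine Sym2.ind (fun x y h2 => ?_) e
      exact (H_adj.1 h2).1
    have h2 := Finset.card_le_card h1
    rw [List.toFinset_card_of_nodup hp.isTrail.edges_nodup, SimpleGraph.Walk.length_edges] at h2
    exact h2.trans hc
  have hcyc := hG w (p.mapLe hle) ((SimpleGraph.Walk.isCycle_mapLe hle).2 hp)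
  rw [SimpleGraph.Walk.length_map] at hcyc
  have h3 := hp.three_le_length
  have hl3 : p.length = 3 := by omega
  match p, hl3, hep, hp with
  | .cons (v := b) h1 (.cons (v := c) h2 (.cons (v := d) h3 q)), hl, hep, hp =>
    simp only [SimpleGraph.Walk.length_cons] at hl
    cases q with
    | nil =>
      simp only [SimpleGraph.Walk.edges_cons, SimpleGraph.Walk.edges_nil, List.mem_cons,
        List.not_mem_nil, or_false] at hep
      exact ⟨_, _, _, (H_adj.1 h1).1, (H_adj.1 h2).1, (H_adj.1 h3).1, (H_adj.1 h1).2,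
        (H_adj.1 h2).2, (H_adj.1 h3).2, hep⟩
    | cons h4 q' =>
      simp only [SimpleGraph.Walk.length_cons] at hl
      omega

/-- the indicator of a triangle -/
noncomputable def tau (T : Finset V) : Sym2 V → ZMod 2 := by
  classical exact fun e => if (∀ x ∈ e, x ∈ T) ∧ ¬ e.IsDiag then 1 else 0

theorem tau_mk (T : Finset V) (x y : V) [Decidable (x ∈ T ∧ y ∈ T ∧ x ≠ y)] :
    tau T s(x, y) = if x ∈ T ∧ y ∈ T ∧ x ≠ y then 1 else 0 := by
  classical
  unfold tau
  by_cases h : x ∈ T ∧ y ∈ T ∧ x ≠ y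
  · rw [if_pos h, if_pos]
    refine ⟨?_, ?_⟩
    · intro z hz
      rcases Sym2.mem_iff.1 hz with rfl | rfl
      · exact h.1
      · exact h.2.1
    · rw [Sym2.mk_isDiag_iff]
      exact h.2.2
  · rw [if_neg h, if_neg]
    rintro ⟨h1, h2⟩
    rw [Sym2.mk_isDiag_iff] at h2
    exact h ⟨h1 x (Sym2.mem_mk_left x y), h1 y (Sym2.mem_mk_right x y), h2⟩

theorem tau_mem {G : SimpleGraph V} {T : Finset V} (hT : G.IsNClique 3 T) : tau T ∈ Z G := by
  classical
  rw [mem_Z]
  constructor
  · intro e
    refine Sym2.ind (fun x y he => ?_) e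
    rw [tau_mk, if_neg]
    rintro ⟨hx, hy, hxy⟩
    exact he (hT.1 hx hy hxy)
  · intro v
    simp only [tau_mk]
    by_cases hv : v ∈ T
    · rw [← Finset.sum_filter]
      have h1 : univ.filter (fun u => v ∈ T ∧ u ∈ T ∧ v ≠ u) = T.erase v := by
        ext u
        simp only [mem_filter, mem_univ, true_and, mem_erase]
        constructor
        · rintro ⟨_, h2, h3⟩
          exact ⟨fun h => h3 h.symm, h2⟩
        · rintro ⟨h2, h3⟩
          exact ⟨hv, h3, fun h => h2 h.symm⟩
      rw [Finset.sum_filter] 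
      rw [← Finset.sum_filter, h1, Finset.sum_const, Finset.card_erase_of_mem hv, hT.2]
      decide
    · refine Finset.sum_eq_zero fun u _ => ?_
      rw [if_neg]
      rintro ⟨h, _⟩
      exact hv h

/-- even functions with small support -/
theorem small {G : SimpleGraph V} (hG : Sp G) : ∀ (n : ℕ) (s : Sym2 V → ZMod 2), s ∈ Z G →
    (sp s).card ≤ n → n ≤ 7 →
    s ∈ Submodule.span (ZMod 2) {f | ∃ T : Finset V, G.IsNClique 3 T ∧ f = tau T} ∧
      (s ≠ 0 → 3 ≤ (sp s).card) := by
  classical
  intro n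
  induction n using Nat.strong_induction_on with
  | _ n ih =>
    intro s hs hn hn7
    by_cases h0 : s = 0
    · refine ⟨?_, fun h => absurd h0 h⟩
      rw [h0]
      exact Submodule.zero_mem _
    · obtain ⟨e, he⟩ : ∃ e, s e ≠ 0 := by
        by_contra hcon
        push Not at hcon
        exact h0 (funext hcon)
      revert he
      refine Sym2.ind (fun u v he => ?_) e
      obtain ⟨a, b, c, hab, hbc, hca, nab, nbc, nca, -⟩ :=
        tri_of_small hG hs (hn.trans hn7) he
      obtain ⟨hs1, hs2⟩ := mem_Z.1 hs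
      have adj : ∀ x y, s s(x, y) ≠ 0 → G.Adj x y := by
        intro x y h
        by_contra h'
        exact h (hs1 _ h')
      have hT : G.IsNClique 3 {a, b, c} := by
        rw [SimpleGraph.is3Clique_triple_iff]
        exact ⟨adj _ _ hab, (adj _ _ hca).symm, adj _ _ hbc⟩
      have hsub : ({s(a, b), s(b, c), s(c, a)} : Finset (Sym2 V)) ⊆ sp s := by
        intro x hx
        simp only [mem_insert, mem_singleton] at hx
        rw [mem_sp]
        rcases hx with rfl | rfl | rfl
        · exact hab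
        · exact hbc
        · exact hca
      have hcard3 : ({s(a, b), s(b, c), s(c, a)} : Finset (Sym2 V)).card = 3 := by
        rw [Finset.card_eq_three]
        refine ⟨_, _, _, ?_, ?_, ?_, rfl⟩
        · intro h
          rcases Sym2.eq_iff.1 h with ⟨h1, h2⟩ | ⟨h1, h2⟩
          · exact nab h1
          · exact nca h1.symm
        · intro h
          rcases Sym2.eq_iff.1 h with ⟨h1, h2⟩ | ⟨h1, h2⟩
          · exact nca h1.symm
          · exact nbc h2
        · intro h
          rcases Sym2.eq_iff.1 h with ⟨h1, h2⟩ | ⟨h1, h2⟩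
          · exact nbc h1
          · exact nab h1.symm
      have hge : 3 ≤ (sp s).card := by
        rw [← hcard3]
        exact Finset.card_le_card hsub
      have hsp : sp (s + tau {a, b, c}) ⊆ sp s \ {s(a, b), s(b, c), s(c, a)} := by
        intro x
        refine Sym2.ind (fun p q hx => ?_) x
        rw [mem_sp, Pi.add_apply] at hx
        rw [mem_sdiff, mem_sp]
        by_cases hpq : p ∈ ({a, b, c} : Finset V) ∧ q ∈ ({a, b, c} : Finset V) ∧ p ≠ q
        · exfalso
          have hne : s s(p, q) ≠ 0 := by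
            obtain ⟨hp, hq, hne⟩ := hpq
            simp only [mem_insert, mem_singleton] at hp hq
            have e1 : s(b, a) = s(a, b) := Sym2.eq_swap
            have e2 : s(c, b) = s(b, c) := Sym2.eq_swap
            have e3 : s(a, c) = s(c, a) := Sym2.eq_swap
            rcases hp with rfl | rfl | rfl <;> rcases hq with rfl | rfl | rfl
            · exact absurd rfl hne
            · exact hab
            · rw [e3]; exact hca
            · rw [e1]; exact hab
            · exact absurd rfl hne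
            · exact hbc
            · exact hca
            · rw [e2]; exact hbc
            · exact absurd rfl hne
          rw [tau_mk, if_pos hpq, (z2 (s s(p, q))).resolve_left hne] at hx
          exact hx (PLG.z2_add_self 1)
        · rw [tau_mk, if_neg hpq, add_zero] at hx
          refine ⟨hx, ?_⟩
          intro hmem
          apply hpq
          simp only [mem_insert, mem_singleton] at hmem ⊢
          rcases hmem with h | h | h <;> rcases Sym2.eq_iff.1 h with ⟨rfl, rfl⟩ | ⟨rfl, rfl⟩
          · exact ⟨Or.inl rfl, Or.inr (Or.inl rfl), nab⟩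
          · exact ⟨Or.inr (Or.inl rfl), Or.inl rfl, nab.symm⟩
          · exact ⟨Or.inr (Or.inl rfl), Or.inr (Or.inr rfl), nbc⟩
          · exact ⟨Or.inr (Or.inr rfl), Or.inr (Or.inl rfl), nbc.symm⟩
          · exact ⟨Or.inr (Or.inr rfl), Or.inl rfl, nca⟩
          · exact ⟨Or.inl rfl, Or.inr (Or.inr rfl), nca.symm⟩
      have hcd : (sp (s + tau {a, b, c})).card ≤ n - 3 := by
        refine (Finset.card_le_card hsp).trans ?_
        rw [Finset.card_sdiff_of_subset hsub, hcard3]
        omega
      have hn3 : 3 ≤ n := hge.trans hn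
      have h1 := ih (n - 3) (by omega) (s + tau {a, b, c})
        (Submodule.add_mem _ hs (tau_mem hT)) hcd (by omega)
      refine ⟨?_, fun _ => hge⟩
      have h2 : s = (s + tau {a, b, c}) + tau {a, b, c} := by
        funext x
        rw [Pi.add_apply, Pi.add_apply, add_assoc, PLG.z2_add_self, add_zero]
      rw [h2]
      exact Submodule.add_mem _ h1.1 (Submodule.subset_span ⟨_, hT, rfl⟩)

end

end DBP
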