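import Pool.Agent.DBP.EUB

/-!
# MP_dbd377_co: Theorem B, the potential of a set of blocks of a drawn graph
-/

set_option autoImplicit false

open scoped BigOperators

namespace DBP

open Finset

variable {V : Type}

/-- no 4-cycle -/
theorem no4 {G : SimpleGraph V} (hG : Sp G) {x y z w : V} (h1 : G.Adj x z) (h2 : G.Adj z y)
    (h3 : G.Adj y w) (h4 : G.Adj w x) (hxy : x ≠ y) (hzw : z ≠ w) : False := by
  have hc : (SimpleGraph.Walk.cons h1 (.cons h2 (.cons h3 (.cons h4 .nil)))).IsCycle := by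
    rw [SimpleGraph.Walk.isCycle_def]
    refine ⟨?_, ?_, ?_⟩
    · rw [SimpleGraph.Walk.isTrail_def]
      simp only [SimpleGraph.Walk.edges_cons, SimpleGraph.Walk.edges_nil, List.nodup_cons,
        List.mem_cons, List.not_mem_nil, or_false, not_or, not_false_eq_true, List.nodup_nil,
        and_true, Sym2.eq_iff, not_and]
      refine ⟨⟨⟨?_, ?_⟩, ⟨?_, ?_⟩, ⟨?_, ?_⟩⟩, ⟨⟨?_, ?_⟩, ⟨?_, ?_⟩⟩, ?_, ?_⟩
      · exact fun h => absurd h h1.ne
      · exact fun h => absurd h hxy
      · exact fun h => absurd h hxy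
      · exact fun h => absurd h h4.ne.symm
      · exact fun h => absurd h h4.ne.symm
      · exact fun _ h => absurd h hzw
      · exact fun h => absurd h h2.ne
      · exact fun h => absurd h hzw
      · exact fun h => absurd h hzw
      · exact fun h => absurd h h1.ne.symm
      · exact fun h => absurd h h3.ne
      · exact fun h => absurd h hxy.symm
    · simp
    · simp only [SimpleGraph.Walk.support_cons, SimpleGraph.Walk.support_nil, List.tail_cons,
        List.nodup_cons, List.mem_cons, List.not_mem_nil, or_false, not_or, not_false_eq_true,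
        List.nodup_nil, and_true]
      exact ⟨⟨h2.ne, hzw, h1.ne.symm⟩, ⟨h3.ne, hxy.symm⟩, h4.ne⟩
  have := hG _ _ hc
  simp only [SimpleGraph.Walk.length_cons, SimpleGraph.Walk.length_nil] at this
  omega

/-- blocks: triangles and edges in no triangle -/
def Bk (G : SimpleGraph V) (b : Finset V) : Prop :=
  G.IsNClique 3 b ∨ ∃ u v, (∀ x, x ∈ b ↔ x = u ∨ x = v) ∧ b.card = 2 ∧ G.Adj u v ∧
    ∀ w, ¬ (G.Adj u w ∧ G.Adj v w)

theorem Bk.card {G : SimpleGraph V} {b : Finset V} (h : Bk G b) : b.card = 2 ∨ b.card = 3 := by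
  rcases h with h | ⟨u, v, -, h, -⟩
  · exact Or.inr h.2
  · exact Or.inl h

theorem Bk.adj {G : SimpleGraph V} {b : Finset V} (h : Bk G b) {x y : V} (hx : x ∈ b)
    (hy : y ∈ b) (hxy : x ≠ y) : G.Adj x y := by
  rcases h with h | ⟨u, v, hb, -, h, -⟩
  · exact h.1 hx hy hxy
  · rcases (hb x).1 hx with rfl | rfl <;> rcases (hb y).1 hy with rfl | rfl
    · exact absurd rfl hxy
    · exact h
    · exact h.symm
    · exact absurd rfl hxy

/-- a third vertex -/
theorem third {G : SimpleGraph V} {b : Finset V} (h : G.IsNClique 3 b) {x y : V} (hx : x ∈ b)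
    (hy : y ∈ b) (hxy : x ≠ y) : ∃ z, z ∈ b ∧ z ≠ x ∧ z ≠ y ∧ ∀ w ∈ b, w = x ∨ w = y ∨ w = z := by
  classical
  have h1 : ((b.erase x).erase y).card = 1 := by
    rw [card_erase_of_mem (mem_erase.2 ⟨hxy.symm, hy⟩), card_erase_of_mem hx, h.2]
  obtain ⟨z, hz⟩ := card_eq_one.1 h1
  have h2 : z ∈ (b.erase x).erase y := by rw [hz]; exact mem_singleton_self z
  rw [mem_erase, mem_erase] at h2
  refine ⟨z, h2.2.2, h2.2.1, h2.1, fun w hw => ?_⟩
  by_contra hcon
  push Not at hcon
  have h3 : w ∈ (b.erase x).erase y := by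
    rw [mem_erase, mem_erase]
    exact ⟨hcon.2.1, hcon.1, hw⟩
  rw [hz, mem_singleton] at h3
  exact hcon.2.2 h3

/-- a block sharing an edge with a triangle is this triangle -/
theorem share1 {G : SimpleGraph V} (hG : Sp G) {b b' : Finset V} (hb : G.IsNClique 3 b)
    (hb' : Bk G b') {x y : V} (hx : x ∈ b) (hy : y ∈ b) (hx' : x ∈ b') (hy' : y ∈ b')
    (hxy : x ≠ y) : b = b' := by
  obtain ⟨z, hz, hzx, hzy, hall⟩ := third hb hx hy hxy
  rcases hb' with hb' | ⟨u, v, hm, -, huv, hno⟩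
  · obtain ⟨w, hw, hwx, hwy, hall'⟩ := third hb' hx' hy' hxy
    have hzw : z = w := by
      by_contra hne
      exact no4 hG (hb.1 hx hz hzx.symm) (hb.1 hz hy hzy) (hb'.1 hy' hw hwy.symm)
        (hb'.1 hw hx' hwx) hxy hne
    subst hzw
    ext t
    constructor
    · intro ht
      rcases hall t ht with rfl | rfl | rfl
      · exact hx'
      · exact hy'
      · exact hw
    · intro ht
      rcases hall' t ht with rfl | rfl | rfl
      · exact hx
      · exact hy
      · exact hz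
  · exfalso
    have hxz := hb.1 hx hz hzx.symm
    have hyz := hb.1 hy hz hzy.symm
    rcases (hm x).1 hx' with rfl | rfl <;> rcases (hm y).1 hy' with rfl | rfl
    · exact hxy rfl
    · exact hno z ⟨hxz, hyz⟩
    · exact hno z ⟨hyz, hxz⟩
    · exact hxy rfl

theorem share {G : SimpleGraph V} (hG : Sp G) {b b' : Finset V} (hb : Bk G b)
    (hb' : Bk G b') {x y : V} (hx : x ∈ b) (hy : y ∈ b) (hx' : x ∈ b') (hy' : y ∈ b')
    (hxy : x ≠ y) : b = b' := by
  have key : ∀ {c c' : Finset V} (_ : Bk G c) (_ : Bk G c'), x ∈ c → y ∈ c → x ∈ c' → y ∈ c' →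
      G.IsNClique 3 c → c = c' := fun _ h2 h3 h4 h5 h6 h7 => share1 hG h7 h2 h3 h4 h5 h6 hxy
  rcases hb with h | ⟨u, v, hm, hc, huv, hno⟩
  · exact key (Or.inl h) hb' hx hy hx' hy' h
  · rcases hb' with h' | ⟨u', v', hm', hc', huv', hno'⟩
    · exact (key (Or.inl h') (Or.inr ⟨u, v, hm, hc, huv, hno⟩) hx' hy' hx hy h').symm
    · ext t
      rw [hm, hm']
      rcases (hm x).1 hx with rfl | rfl <;> rcases (hm y).1 hy with rfl | rfl
      · exact absurd rfl hxy
      · rcases (hm' x).1 hx' with rfl | rfl <;> rcases (hm' y).1 hy' with rfl | rfl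
        · exact absurd rfl hxy
        · exact Iff.rfl
        · exact or_comm
        · exact absurd rfl hxy
      · rcases (hm' x).1 hx' with rfl | rfl <;> rcases (hm' y).1 hy' with rfl | rfl
        · exact absurd rfl hxy
        · exact or_comm
        · exact Iff.rfl
        · exact absurd rfl hxy
      · exact absurd rfl hxy

/-- the graph of a set of blocks on a set of vertices -/
def Gr (Y : Finset (Finset V)) (S : Finset V) : SimpleGraph S where
  Adj x y := x ≠ y ∧ ∃ b ∈ Y, x.1 ∈ b ∧ y.1 ∈ b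
  symm := ⟨fun _ _ h => ⟨h.1.symm, let ⟨b, h1, h2, h3⟩ := h.2; ⟨b, h1, h3, h2⟩⟩⟩
  loopless := ⟨fun _ h => h.1 rfl⟩

theorem Gr_adj {Y : Finset (Finset V)} {S : Finset V} {x y : S} :
    (Gr Y S).Adj x y ↔ x ≠ y ∧ ∃ b ∈ Y, x.1 ∈ b ∧ y.1 ∈ b := Iff.rfl

theorem Gr_hom {G : SimpleGraph V} {Y : Finset (Finset V)} (hY : ∀ b ∈ Y, Bk G b)
    {S : Finset V} {x y : S} (h : (Gr Y S).Adj x y) : G.Adj x.1 y.1 := by
  obtain ⟨h1, b, hb, hx, hy⟩ := h
  exact (hY b hb).adj hx hy (fun h => h1 (Subtype.ext h))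

theorem Gr_drawn {G : SimpleGraph V} {Y : Finset (Finset V)} (hY : ∀ b ∈ Y, Bk G b)
    (S : Finset V) (hD : PLG.Drawn G) : PLG.Drawn (Gr Y S) := by
  obtain ⟨p, hp, γ, h1, h2⟩ := hD
  refine ⟨fun x => p x.1, hp.comp Subtype.val_injective, fun x y => γ x.1 y.1, ?_, ?_⟩
  · intro u v huv
    obtain ⟨a1, a2, a3, a4, a5⟩ := h1 u.1 v.1 (Gr_hom hY huv)
    exact ⟨a1, a2, a3, a4, fun t ht w => a5 t ht w.1⟩
  · intro u v x y huv hxy hne
    refine h2 u.1 v.1 x.1 y.1 (Gr_hom hY huv) (Gr_hom hY hxy) ?_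
    intro h
    apply hne
    rcases Sym2.eq_iff.1 h with ⟨e1, e2⟩ | ⟨e1, e2⟩
    · exact Sym2.eq_iff.2 (Or.inl ⟨Subtype.ext e1, Subtype.ext e2⟩)
    · exact Sym2.eq_iff.2 (Or.inr ⟨Subtype.ext e1, Subtype.ext e2⟩)

theorem Gr_sp {G : SimpleGraph V} {Y : Finset (Finset V)} (hY : ∀ b ∈ Y, Bk G b)
    (S : Finset V) (hG : Sp G) : Sp (Gr Y S) := by
  intro v c hc
  let f : Gr Y S →g G := ⟨Subtype.val, fun h => Gr_hom hY h⟩
  have h1 : (c.map f).IsCycle :=
    (SimpleGraph.Walk.isCycle_map_iff_of_injective Subtype.val_injective).2 hc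
  have h2 := hG _ _ h1
  rwa [SimpleGraph.Walk.length_map] at h2

/-- the main step: every block has at least two vertices in other blocks -/
theorem step (hDUAL : PLG.Stmt_DUAL) {G : SimpleGraph V} (hD : PLG.Drawn G) (hG : Sp G)
    [DecidableEq V] (Y : Finset (Finset V)) (hne : Y.Nonempty) (hY : ∀ b ∈ Y, Bk G b)
    (hk : ∀ b ∈ Y, 2 ≤ (b ∩ (Y.erase b).biUnion id).card) :
    (∑ b ∈ Y, (3 * b.card - 4)) + 4 ≤ 3 * (Y.biUnion id).card := by
  classical
  set S : Finset V := (Y.biUnion id).filter (fun p => 2 ≤ (Y.filter (fun b => p ∈ b)).card) with hS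
  have hmS : ∀ p, p ∈ S ↔ 2 ≤ (Y.filter (fun b => p ∈ b)).card := by
    intro p
    rw [hS, mem_filter]
    constructor
    · exact fun h => h.2
    · intro h
      refine ⟨?_, h⟩
      have h1 : 0 < (Y.filter (fun b => p ∈ b)).card := by omega
      obtain ⟨b, hb⟩ := card_pos.1 h1
      rw [mem_filter] at hb
      exact mem_biUnion.2 ⟨b, hb.1, hb.2⟩
  have hbS : ∀ b ∈ Y, b ∩ (Y.erase b).biUnion id = b ∩ S := by
    intro b hb
    ext p
    rw [mem_inter, mem_inter, hmS, mem_biUnion]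
    constructor
    · rintro ⟨h1, b', hb', h2⟩
      refine ⟨h1, ?_⟩
      have h3 : ({b, b'} : Finset (Finset V)) ⊆ Y.filter (fun b => p ∈ b) := by
        intro c hc
        rcases mem_insert.1 hc with rfl | hc
        · exact mem_filter.2 ⟨hb, h1⟩
        · rw [mem_singleton] at hc
          subst hc
          exact mem_filter.2 ⟨(mem_erase.1 hb').2, h2⟩
      have h4 := card_le_card h3
      rwa [card_pair (mem_erase.1 hb').1.symm] at h4
    · rintro ⟨h1, h2⟩
      refine ⟨h1, ?_⟩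
      obtain ⟨c, hc, hcb⟩ := exists_mem_ne (by omega : 1 < (Y.filter (fun b => p ∈ b)).card) b
      rw [mem_filter] at hc
      exact ⟨c, mem_erase.2 ⟨hcb, hc.1⟩, hc.2⟩
  have hm2 : ∀ b ∈ Y, 2 ≤ (b ∩ S).card := fun b hb => by
    rw [← hbS b hb]
    exact hk b hb
  have hm3 : ∀ b ∈ Y, (b ∩ S).card ≤ 3 := fun b hb => by
    refine (card_le_card inter_subset_left).trans ?_
    rcases (hY b hb).card with h | h <;> omega
  obtain ⟨b0, hb0⟩ := hne
  have hSne : Nonempty S := by
    have h1 := hm2 b0 hb0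
    have h2 : 0 < (b0 ∩ S).card := by omega
    obtain ⟨p, hp⟩ := card_pos.1 h2
    exact ⟨⟨p, (mem_inter.1 hp).2⟩⟩
  -- the Euler inequality
  have hE := euler (V := S) (Gr_sp hY S hG) (hDUAL S (Gr Y S) (Gr_drawn hY S hD))
  -- edges
  set bs : Finset V → Finset S := fun b => univ.filter (fun x : S => x.1 ∈ b) with hbs
  have hbscard : ∀ b, (bs b).card = (b ∩ S).card := by
    intro b
    have h1 : (bs b).map (Function.Embedding.subtype _) = b ∩ S := by
      ext p
      rw [mem_map, mem_inter]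
      constructor
      · rintro ⟨x, hx, rfl⟩
        exact ⟨(mem_filter.1 hx).2, x.2⟩
      · rintro ⟨h1, h2⟩
        exact ⟨⟨p, h2⟩, mem_filter.2 ⟨mem_univ _, h1⟩, rfl⟩
    rw [← h1, card_map]
  have hedges : ∑ b ∈ Y, ((b ∩ S).card).choose 2 ≤ Nat.card (Gr Y S).edgeSet := by
    have h1 : ∀ b ∈ Y, ((b ∩ S).card).choose 2 = (((bs b).offDiag).image (Function.uncurry Sym2.mk)).card := by
      intro b _
      rw [Sym2.card_image_offDiag, hbscard]
    rw [sum_congr rfl h1, ← card_biUnion]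
    · have : Fintype (Gr Y S).edgeSet := Fintype.ofFinite _
      rw [Nat.card_eq_fintype_card, ← Set.toFinset_card]
      refine card_le_card ?_
      intro e he
      obtain ⟨b, hb, he⟩ := mem_biUnion.1 he
      obtain ⟨⟨x, y⟩, hxy, rfl⟩ := mem_image.1 he
      rw [mem_offDiag] at hxy
      rw [Set.mem_toFinset]
      exact ⟨hxy.2.2, b, hb, (mem_filter.1 hxy.1).2, (mem_filter.1 hxy.2.1).2⟩
    · intro b hb b' hb' hbb
      show Disjoint _ _
      rw [disjoint_left]
      intro e he he'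
      obtain ⟨⟨x, y⟩, hxy, rfl⟩ := mem_image.1 he
      obtain ⟨⟨x', y'⟩, hxy', heq⟩ := mem_image.1 he'
      rw [mem_offDiag] at hxy hxy'
      have a1 := (mem_filter.1 hxy.1).2
      have a2 := (mem_filter.1 hxy.2.1).2
      have a3 := (mem_filter.1 hxy'.1).2
      have a4 := (mem_filter.1 hxy'.2.1).2
      have a5 : x.1 ≠ y.1 := fun h => hxy.2.2 (Subtype.ext h)
      apply hbb
      have heq' : s(x', y') = s(x, y) := heq
      rcases Sym2.eq_iff.1 heq' with ⟨e1, e2⟩ | ⟨e1, e2⟩
      · subst e1 e2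
        exact share hG (hY b hb) (hY b' hb') a1 a2 a3 a4 a5
      · subst e1 e2
        exact share hG (hY b hb) (hY b' hb') a1 a2 a4 a3 a5
  -- triangles
  have htri : Nat.card {T : Finset S // (Gr Y S).IsNClique 3 T}
      ≤ ∑ b ∈ Y, (if (b ∩ S).card = 3 then 1 else 0) := by
    have : Fintype {T : Finset S // (Gr Y S).IsNClique 3 T} := Fintype.ofFinite _
    rw [← card_filter, Nat.card_eq_fintype_card, ← card_univ]
    refine card_le_card_of_injOn (fun T => T.1.map (Function.Embedding.subtype _)) ?_ ?_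
    · rintro ⟨T, hT⟩ _
      obtain ⟨x, y, z, hxy, hxz, hyz, hTe⟩ := card_eq_three.1 hT.2
      have hTV : G.IsNClique 3 (T.map (Function.Embedding.subtype _)) := by
        refine ⟨?_, by rw [card_map]; exact hT.2⟩
        intro u hu v hv huv
        rw [mem_coe, mem_map] at hu hv
        obtain ⟨u', hu', rfl⟩ := hu
        obtain ⟨v', hv', rfl⟩ := hv
        exact Gr_hom hY (hT.1 hu' hv' (fun h => huv (by rw [h])))
      have hx : x ∈ T := by rw [hTe]; simp
      have hy : y ∈ T := by rw [hTe]; simp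
      obtain ⟨-, b, hb, hxb, hyb⟩ := hT.1 hx hy hxy
      have heq := share1 hG hTV (hY b hb)
        (mem_map.2 ⟨x, hx, rfl⟩ : x.1 ∈ T.map (Function.Embedding.subtype _))
        (mem_map.2 ⟨y, hy, rfl⟩ : y.1 ∈ T.map (Function.Embedding.subtype _)) hxb hyb
        (fun h => hxy (Subtype.ext h))
      show T.map (Function.Embedding.subtype _) ∈ ((Y.filter fun b => (b ∩ S).card = 3 : Finset _) : Set _)
      rw [mem_coe, heq, mem_filter]
      refine ⟨hb, ?_⟩
      rw [← heq]
      have h5 : T.map (Function.Embedding.subtype _) ∩ S = T.map (Function.Embedding.subtype _) := by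
        rw [inter_eq_left]
        intro p hp
        obtain ⟨q, _, rfl⟩ := mem_map.1 hp
        exact q.2
      rw [h5, card_map]
      exact hT.2
    · rintro ⟨T, hT⟩ _ ⟨T', hT'⟩ _ h
      exact Subtype.ext (map_injective _ h)
  -- incidences
  have hinc : 2 * S.card ≤ ∑ b ∈ Y, (b ∩ S).card := by
    have h1 : ∑ b ∈ Y, (b ∩ S).card = ∑ p ∈ S, (Y.filter (fun b => p ∈ b)).card := by
      have h2 : ∀ b ∈ Y, (b ∩ S).card = ∑ p ∈ S, if p ∈ b then 1 else 0 := by
        intro b _
        rw [← card_filter]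
        congr 1
        ext p
        rw [mem_inter]
        exact ⟨fun h => mem_filter.2 ⟨h.2, h.1⟩,
          fun h => ⟨(mem_filter.1 h).2, (mem_filter.1 h).1⟩⟩
      rw [sum_congr rfl h2, sum_comm]
      refine sum_congr rfl fun p _ => ?_
      rw [← card_filter]
    rw [h1, mul_comm, ← smul_eq_mul, ← sum_const]
    exact sum_le_sum fun p hp => (hmS p).1 hp
  -- vertices
  have hver : S.card + ∑ b ∈ Y, (b \ S).card ≤ (Y.biUnion id).card := by
    have h1 : (Y.biUnion fun b => b \ S).card = ∑ b ∈ Y, (b \ S).card := by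
      refine card_biUnion ?_
      intro b hb b' hb' hbb
      show Disjoint _ _
      rw [disjoint_left]
      intro p hp hp'
      rw [mem_sdiff] at hp hp'
      apply hp.2
      rw [hmS]
      have h3 : ({b, b'} : Finset (Finset V)) ⊆ Y.filter (fun b => p ∈ b) := by
        intro c hc
        rcases mem_insert.1 hc with rfl | hc
        · exact mem_filter.2 ⟨hb, hp.1⟩
        · rw [mem_singleton] at hc
          subst hc
          exact mem_filter.2 ⟨hb', hp'.1⟩
      have h4 := card_le_card h3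
      rwa [card_pair hbb] at h4
    rw [← h1, ← card_union_of_disjoint]
    · refine card_le_card ?_
      intro p hp
      rcases mem_union.1 hp with h | h
      · exact (mem_filter.1 h).1
      · obtain ⟨b, hb, h⟩ := mem_biUnion.1 h
        exact mem_biUnion.2 ⟨b, hb, (mem_sdiff.1 h).1⟩
    · rw [disjoint_left]
      intro p hp hp'
      obtain ⟨b, _, h⟩ := mem_biUnion.1 hp'
      exact (mem_sdiff.1 h).2 hp
  -- arithmetic
  have hid : ∀ b ∈ Y, 6 * ((b ∩ S).card).choose 2 + 8
      = 5 * (if (b ∩ S).card = 3 then 1 else 0) + 7 * (b ∩ S).card := by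
    intro b hb
    have h1 := hm2 b hb
    have h2 := hm3 b hb
    have h3 : (b ∩ S).card = 2 ∨ (b ∩ S).card = 3 := by omega
    rcases h3 with h3 | h3
    · rw [h3]; decide
    · rw [h3]; decide
  have hsum1 : 6 * ∑ b ∈ Y, ((b ∩ S).card).choose 2 + 8 * Y.card
      = 5 * ∑ b ∈ Y, (if (b ∩ S).card = 3 then 1 else 0) + 7 * ∑ b ∈ Y, (b ∩ S).card := by
    have h1 := sum_congr rfl hid
    rw [sum_add_distrib, sum_add_distrib, ← mul_sum, ← mul_sum, ← mul_sum, sum_const,
      smul_eq_mul, mul_comm Y.card] at h1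
    exact h1
  have hsum2 : ∑ b ∈ Y, (b ∩ S).card + ∑ b ∈ Y, (b \ S).card = ∑ b ∈ Y, b.card := by
    rw [← sum_add_distrib]
    exact sum_congr rfl fun b _ => card_inter_add_card_sdiff b S
  have hsum3 : ∑ b ∈ Y, (3 * b.card - 4) + 4 * Y.card = 3 * ∑ b ∈ Y, b.card := by
    have h1 : ∀ b ∈ Y, (3 * b.card - 4) + 4 = 3 * b.card := by
      intro b hb
      rcases (hY b hb).card with h | h <;> omega
    have h2 := sum_congr rfl h1
    rw [sum_add_distrib, sum_const, smul_eq_mul, ← mul_sum, mul_comm Y.card] at h2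
    exact h2
  rw [Fintype.card_coe] at hE
  omega

/-- Theorem B for blocks -/
theorem theoremB' (hDUAL : PLG.Stmt_DUAL) {G : SimpleGraph V} (hD : PLG.Drawn G) (hG : Sp G)
    [DecidableEq V] : ∀ (n : ℕ) (Y : Finset (Finset V)), Y.card = n → Y.Nonempty →
    (∀ b ∈ Y, Bk G b) → (∑ b ∈ Y, (3 * b.card - 4)) + 4 ≤ 3 * (Y.biUnion id).card := by
  intro n
  induction n with
  | zero =>
    intro Y hc hne
    rw [card_eq_zero] at hc
    exact absurd hc hne.ne_empty
  | succ n ih =>
    intro Y hc hne hY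
    by_cases hk : ∀ b ∈ Y, 2 ≤ (b ∩ (Y.erase b).biUnion id).card
    · exact step hDUAL hD hG Y hne hY hk
    · push Not at hk
      obtain ⟨b, hb, hk⟩ := hk
      have hYb : (Y.erase b).card = n := by
        rw [card_erase_of_mem hb, hc]
        rfl
      have hunion : Y.biUnion id = b ∪ (Y.erase b).biUnion id := by
        conv_lhs => rw [← insert_erase hb]
        rw [biUnion_insert]
        rfl
      have hsum : ∑ c ∈ Y, (3 * c.card - 4) = (3 * b.card - 4) + ∑ c ∈ Y.erase b, (3 * c.card - 4) :=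
        (add_sum_erase Y _ hb).symm
      have hcb := (hY b hb).card
      rcases (Y.erase b).eq_empty_or_nonempty with he | he
      · rw [hunion, hsum, he]
        rw [biUnion_empty, union_empty, sum_empty]
        rcases hcb with h | h <;> omega
      · have h1 := ih (Y.erase b) hYb he (fun c hc => hY c (mem_erase.1 hc).2)
        have h2 := card_union_add_card_inter b ((Y.erase b).biUnion id)
        rw [hunion, hsum]
        rcases hcb with h | h <;> omega

/-- Theorem B: the potential of a nonempty set of blocks is at least 4 -/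
theorem theoremB (hDUAL : PLG.Stmt_DUAL) {G : SimpleGraph V} (hD : PLG.Drawn G)
    (hG : ∀ (v : V) (c : G.Walk v v), c.IsCycle → c.length < 4 ∨ 7 < c.length)
    [DecidableEq V] (Y : Finset (Finset V)) (hne : Y.Nonempty)
    (hY : ∀ b ∈ Y, G.IsNClique 3 b ∨
      ∃ u v, b = {u, v} ∧ G.Adj u v ∧ ∀ w, ¬ (G.Adj u w ∧ G.Adj v w)) :
    (∑ b ∈ Y, (3 * b.card - 4)) + 4 ≤ 3 * (Y.biUnion id).card := by
  refine theoremB' hDUAL hD hG Y.card Y rfl hne fun b hb => ?_
  rcases hY b hb with h | ⟨u, v, rfl, h1, h2⟩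
  · exact Or.inl h
  · refine Or.inr ⟨u, v, fun x => ?_, card_pair h1.ne, h1, h2⟩
    rw [mem_insert, mem_singleton]

end DBP
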